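import Pool.Agent.P8H95.CD.Red

/-!
# MP_975ab8_al, Q1: circulant determinants over finite chain rings, sizes not coprime to `q`

Let `R` be a finite commutative chain ring with maximal ideal `γR`, nilpotency index `e` and residue
field of `q` elements and characteristic `p`, and let `n = m p^k` with `p ∤ m` (every `n ≥ 1` has
this form).  Let `γ^r ∣ p`, `r ≥ 1`, and `τ_0 = 1`, `τ_{j+1} = τ_j + min(r, (p-1) τ_j)`.

* If `p γ = 0` (for instance if `R` has characteristic `p`), the numbers `c_n(R, a)` are determined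
  for all `n` and all non-units `a`; the non-unit determinants are `p^k`-th powers of non-units.
* Every non-unit which is a determinant is divisible by `γ^{τ_k}`; so if `e ≤ τ_k`, then `0` is the
  only one, and `c_n(R, 0)` is determined.
* If `e ≤ r + τ_j`, the numbers for `m p^(j+l)` follow from the numbers for `m p^j`.
-/

set_option autoImplicit false

namespace Pool.Agent.Results.MP_975ab8_al.NoncoprimeCount

open Pool.Agent.R823.CC Pool.Agent.P8H95.CD

universe u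

open scoped Classical in
theorem result (R : Type u) [CommRing R] [Fintype R] [Nontrivial R]
    (hchain : ∀ I J : Ideal R, I ≤ J ∨ J ≤ I) (γ : R) (hγ : (Ideal.span {γ}).IsMaximal)
    (e : ℕ) (he : γ ^ e = 0) (hmin : ∀ k < e, γ ^ k ≠ 0) (q : ℕ)
    (hq : Nat.card (R ⧸ Ideal.span {γ}) = q) (p : ℕ) (hp : p.Prime) (r : ℕ) (hr : 1 ≤ r)
    (hrp : γ ^ r ∣ (p : R)) (m k : ℕ) (hm : 0 < m) (hpm : ¬ p ∣ m) :
    ((p : R) * γ = 0 →
      (∀ a : R, γ ∣ a → (∀ x : R, γ ∣ x → x ^ p ^ k ≠ a) → circCount R (m * p ^ k) a = 0) ∧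
      (∀ s : ℕ, 1 ≤ s → s * p ^ k < e → ∀ b : R, IsUnit b →
        (circCount R (m * p ^ k) ((γ ^ s * b) ^ p ^ k) : ℚ) =
          (q : ℚ) ^ (e * (m * p ^ k - m)) * (q : ℚ) ^ (e - (e + p ^ k - 1) / p ^ k) *
            EE e q m s) ∧
      (circCount R (m * p ^ k) (0 : R) : ℚ) = (q : ℚ) ^ (e * (m * p ^ k)) -
        (q : ℚ) ^ (e * (m * p ^ k - m)) * ∑ s ∈ Finset.range ((e + p ^ k - 1) / p ^ k),
          ((q : ℚ) ^ (e - s) - (q : ℚ) ^ (e - s - 1)) * EE e q m s) ∧
    (∀ a : R, γ ∣ a → ¬ γ ^ tau p r k ∣ a → circCount R (m * p ^ k) a = 0) ∧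
    (e ≤ tau p r k → (circCount R (m * p ^ k) (0 : R) : ℚ) = (q : ℚ) ^ (e * (m * p ^ k)) -
      (q : ℚ) ^ (e * (m * p ^ k - m)) *
        (((q : ℚ) ^ e - (q : ℚ) ^ (e - 1)) * EE e q m 0)) ∧
    (∀ j l : ℕ, e ≤ r + tau p r j → ∀ a : R, γ ∣ a →
      circCount R (m * p ^ (j + l)) a = q ^ (e * (m * p ^ (j + l) - m * p ^ j)) *
        ∑ x ∈ Finset.univ.filter (fun x : R => γ ∣ x ∧ x ^ p ^ l = a),
          circCount R (m * p ^ j) x) := by
  have h := mixed' R hchain γ hγ e he hmin q hq p hp r hr hrp m k hm hpm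
  refine ⟨fun h0 => ?_, h.1, h.2, ?_⟩
  · exact mainG R hchain γ hγ e he hmin q hq p hp (dvd_trans (dvd_pow_self γ (by omega)) hrp) h0
      m k hm hpm
  · intro j l hj a ha
    exact red R γ hγ e he hmin q hq p hp r hr hrp m j l hm hj a ha

end Pool.Agent.Results.MP_975ab8_al.NoncoprimeCount
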